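import Pool.Agent.Helper85_CYD.Defs

/-! # CYD: statements of the modules of part 2 (`n = p m`, `p ≥ 12 m ^ 2`).
Architect: helper85.  Proofs: /team-store/PLAN_CYD.md -/

set_option autoImplicit false

open Polynomial IsLocalRing

namespace Pool.Agent.CYD

/-- UNT: the quotients `u(κ k) / u(k)` are units above `l`. -/
def UntStmt : Prop :=
  ∀ (n : ℕ) (g h : ℤ[X]), Fg n g h → ∀ (K : Type) [Field K] [CharZero K]
    (A : ValuationSubring K) (z : A) (l κ k : ℕ), l.Prime → l ∣ n → (l : A) ∈ maximalIdeal A →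
    IsPrimitiveRoot z n → κ.Coprime n → k.Coprime n →
    (κ ≡ 1 [MOD n / l] ∨ κ ≡ l [MOD n / l]) →
    A.valuation (uu g ((z : K) ^ (κ * k))) = A.valuation (uu g ((z : K) ^ k))

/-- OPR: the iterated quotient is a root of unity. -/
def OprStmt : Prop :=
  ∀ (n : ℕ) (g h : ℤ[X]), Fg n g h → ∀ (K : Type) [Field K] [NumberField K]
    [IsCyclotomicExtension {n} ℚ K] (z : K) (T : List (ℕ × ℕ)), IsPrimitiveRoot z n →
    (∀ x ∈ T, x.1.Coprime n) →
    (∀ l : ℕ, l.Prime → l ∣ n → ∃ x ∈ T, x.1 ≡ 1 [MOD n / l] ∨ x.1 ≡ l [MOD n / l]) →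
    ∀ k : ℕ, k.Coprime n → ∃ (s : ℤ) (i : ℕ), (s = 1 ∨ s = -1) ∧
      WW (fun j => uu g (z ^ j)) T k = s * z ^ i

/-- WRO: a represented root of unity has constant logarithmic derivative. -/
def WroStmt : Prop :=
  ∀ (p m : ℕ), p.Prime → ¬ p ∣ m → 1 ≤ m → ∀ (K : Type) [Field K] [CharZero K]
    (A : ValuationSubring K) (z : A) (w : K) (N P : (ResidueField A)[X]) (μ : ℕ) (s : ℤ) (i : ℕ),
    (p : A) ∈ maximalIdeal A → IsPrimitiveRoot z (p * m) → Rep p A z w N P μ →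
    (s = 1 ∨ s = -1) → w = s * (z : K) ^ i →
    N.natDegree + μ + 2 < p → P.natDegree + μ + 2 < p → ∃ c : ResidueField A, N = C c * P

/-- RPC: representations of quotients. -/
def RpcStmt : Prop :=
  ∀ (p : ℕ) (K : Type) [Field K] [CharZero K] (A : ValuationSubring K) (z : A) (w w' : K)
    (N P N' P' : (ResidueField A)[X]) (μ μ' : ℕ), p ≠ 0 → w' ≠ 0 →
    Rep p A z w N P μ → Rep p A z w' N' P' μ' →
    Rep p A z (w / w') (N * P' - N' * P) (P * P') (μ + μ')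

/-- RPW: representations of the iterated quotients. -/
def RpwStmt : Prop :=
  ∀ (p m : ℕ) (K : Type) [Field K] [CharZero K] (A : ValuationSubring K) (z : A) (u : ℕ → K)
    (A' B' : ℕ → (ResidueField A)[X]) (μ : ℕ), p.Prime → (p : A) ∈ maximalIdeal A →
    (∀ k : ℕ, k.Coprime (p * m) → u k ≠ 0) →
    (∀ k D : ℕ, k.Coprime (p * m) → k ≡ D [MOD p] →
      Rep p A z (u k) (C (D : ResidueField A) * expand _ D (A' k)) (expand _ D (B' k)) μ) →
    ∀ T : List (ℕ × ℕ), (∀ x ∈ T, x.1.Coprime (p * m) ∧ x.1 ≡ x.2 [MOD p]) →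
    ∀ k D : ℕ, k.Coprime (p * m) → k ≡ D [MOD p] →
      Rep p A z (WW u T k) (C (D : ResidueField A) * expand _ D (WP A' B' T k).1)
        (expand _ D (WP A' B' T k).2) (2 ^ T.length * μ)

/-- WPD: degrees, periodicity and nonvanishing for `WP`. -/
def WpdStmt : Prop :=
  ∀ (L : Type) [Field L] (m d : ℕ) (A B : ℕ → L[X]) (T : List (ℕ × ℕ)),
    (∀ x ∈ T, 1 ≤ x.2) → (∀ b : ℕ, B b ≠ 0 ∧ (A b).natDegree ≤ d ∧ (B b).natDegree ≤ d) →
    (∀ b b' : ℕ, b ≡ b' [MOD m] → A b = A b' ∧ B b = B b') →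
    (∀ b : ℕ, (WP A B T b).2 ≠ 0 ∧
      (WP A B T b).1.natDegree ≤ d * (T.map (fun x => 1 + x.2)).prod ∧
      (WP A B T b).2.natDegree ≤ d * (T.map (fun x => 1 + x.2)).prod) ∧
    (∀ b b' : ℕ, b ≡ b' [MOD m] → WP A B T b = WP A B T b')

/-- LST: the list of operators. -/
def LstStmt : Prop :=
  ∀ (p m : ℕ), p.Prime → 3 ≤ m → Odd m → Squarefree m → 12 * m ^ 2 ≤ p →
    ∃ T : List (ℕ × ℕ),
      (∀ x ∈ T, x.1.Coprime (p * m) ∧ x.1 ≡ x.2 [MOD p] ∧ 2 ≤ x.2 ∧ ¬ p ∣ x.2) ∧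
      (∀ l : ℕ, l.Prime → l ∣ p * m →
        ∃ x ∈ T, x.1 ≡ 1 [MOD p * m / l] ∨ x.1 ≡ l [MOD p * m / l]) ∧
      3 * m.totient * (T.map (fun x => 1 + x.2)).prod + 2 ^ T.length * (2 * m.totient) + 2 < p

/-- RAD: logarithmic derivatives of polynomials whose prime factors divide `Δ`. -/
def RadStmt : Prop :=
  ∀ (L : Type) [Field L] (f Δ : L[X]) (k : ℕ), Δ ≠ 0 → f ∣ Δ ^ k →
    ∃ N : L[X], N.natDegree ≤ Δ.natDegree ∧ N * f = Δ * (X * derivative f)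

/-- RPX: the values at `z ^ k`. -/
def RpxStmt : Prop :=
  ∀ (p m : ℕ) (L : Type) [Field L] [CharP L p] (a : L) (f : ℤ[X]) (k D : ℕ), p.Prime → 1 ≤ m →
    IsPrimitiveRoot a m → k ≡ D [MOD p] → ¬ p ∣ k →
    (X - 1) ^ (p - 1) ∣ (red L (expand ℤ k f)).comp (C a * X) -
      (red L f).comp (C (a ^ k) * X ^ D) ∧
    rootMultiplicity 1 ((red L f).comp (C (a ^ k) * X ^ D)) = rootMultiplicity (a ^ k) (red L f) ∧
    (red L f ≠ 0 → (red L f).comp (C (a ^ k) * X ^ D) ≠ 0)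

/-- IDN: the identities for `g` and `g*` at `z ^ k`. -/
def IdnStmt : Prop :=
  ∀ (p m : ℕ) (g h : ℤ[X]), p.Prime → 3 ≤ m → ¬ p ∣ m → Fg (p * m) g h →
    ∀ (K : Type) [Field K] [CharZero K] (x : K), IsPrimitiveRoot x (p * m) →
    aeval x g * (aeval x h * aeval x (cyclotomic m ℤ)) =
      p * (x ^ (p - 1) * aeval (x ^ p) (derivative (cyclotomic m ℤ))) ∧
    aeval x g.reverse * (aeval x h.reverse * aeval x (cyclotomic m ℤ)) =
      -(p * (x ^ p * aeval (x ^ p) (derivative (cyclotomic m ℤ)))) ∧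
    aeval x g.reverse * aeval x h.reverse = -(x * (aeval x g * aeval x h))

/-- FCT: the factorisation modulo `p`. -/
def FctStmt : Prop :=
  ∀ (p m : ℕ) (g h : ℤ[X]), Fb p m g h → ∀ (L : Type) [Field L] [CharP L p],
    red L g * red L h =
      -(cyclotomic m L ^ (p - 2) * derivative (cyclotomic m L)) ∧
    red L g.reverse * red L h.reverse =
      -(cyclotomic m L ^ (p - 2) * (derivative (cyclotomic m L)).reverse) ∧
    X * derivative (cyclotomic m L) + (derivative (cyclotomic m L)).reverse =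
      C ((m.totient : ℕ) : L) * cyclotomic m L ∧
    (derivative (cyclotomic m L)).natDegree + 1 = m.totient ∧
    (derivative (cyclotomic m L)).reverse.natDegree + 1 = m.totient ∧
    (red L g).natDegree = g.natDegree ∧ (red L g).reverse = red L g.reverse ∧
    (red L g).coeff 0 ≠ 0 ∧ (red L g.reverse).coeff 0 ≠ 0 ∧
    (red L h).coeff 0 ≠ 0 ∧ (red L h.reverse).coeff 0 ≠ 0

/-- RPB: the representations of `u(k)`. -/
def RpbStmt : Prop :=
  ∀ (p m : ℕ) (g h : ℤ[X]), Fb p m g h → ∀ (K : Type) [Field K] [CharZero K]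
    (A : ValuationSubring K) (z : A), (p : A) ∈ maximalIdeal A → IsPrimitiveRoot z (p * m) →
    ∃ A' B' : ℕ → (ResidueField A)[X],
      (∀ b : ℕ, B' b ≠ 0 ∧ (A' b).natDegree ≤ 3 * m.totient ∧
        (B' b).natDegree ≤ 3 * m.totient) ∧
      (∀ b b' : ℕ, b ≡ b' [MOD m] → A' b = A' b' ∧ B' b = B' b') ∧
      (∀ k D : ℕ, k.Coprime (p * m) → k ≡ D [MOD p] →
        Rep p A z (uu g ((z : K) ^ k)) (C (D : ResidueField A) * expand _ D (A' k))
          (expand _ D (B' k)) (2 * m.totient)) ∧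
      (∀ b : ℕ, b.Coprime m → ∀ c : ResidueField A, A' b = C c * B' b → TypC A m g h z b)

/-- POL: one step of the descent. -/
def PolStmt : Prop :=
  ∀ (L : Type) [Field L] (m D κ : ℕ), 1 ≤ m → (D : L) ≠ 0 → 2 ≤ D → κ.Coprime m →
    ∀ (A B : ℕ → L[X]), (∀ b : ℕ, B b ≠ 0) →
    (∀ b b' : ℕ, b ≡ b' [MOD m] → A b = A b' ∧ B b = B b') →
    (∀ b : ℕ, b.Coprime m → ∃ c : L,
      C (D : L) * expand L D (A (κ * b)) * B b - A b * expand L D (B (κ * b)) =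
        C c * (expand L D (B (κ * b)) * B b)) →
    ∀ b : ℕ, b.Coprime m → ∃ c : L, A b = C c * B b

/-- DES: the descent. -/
def DesStmt : Prop :=
  ∀ (L : Type) [Field L] (p m : ℕ) [CharP L p], p.Prime → 1 ≤ m → ∀ (A B : ℕ → L[X]),
    (∀ b : ℕ, B b ≠ 0) → (∀ b b' : ℕ, b ≡ b' [MOD m] → A b = A b' ∧ B b = B b') →
    ∀ T : List (ℕ × ℕ), (∀ x ∈ T, x.1.Coprime m ∧ 2 ≤ x.2 ∧ ¬ p ∣ x.2) →
    (∀ b : ℕ, b.Coprime m → ∃ c : L, (WP A B T b).1 = C c * (WP A B T b).2) →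
    ∀ b : ℕ, b.Coprime m → ∃ c : L, A b = C c * B b

/-- LGM: multiplicities of polynomials with constant logarithmic derivative of the quotient. -/
def LgmStmt : Prop :=
  ∀ (L : Type) [Field L] (p : ℕ) [CharP L p] (x y : L[X]), p.Prime → x ≠ 0 → y ≠ 0 →
    LogC x y →
    (∀ a : L, a ≠ 0 → rootMultiplicity a x ≡ rootMultiplicity a y [MOD p]) ∧
    (x.coeff 0 ≠ 0 → y.coeff 0 ≠ 0 → derivative x * y = x * derivative y) ∧
    (x.coeff 0 ≠ 0 → y.coeff 0 ≠ 0 → x.natDegree < p → y.natDegree < p →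
      ∃ c : L, c ≠ 0 ∧ x = C c * y)

/-- TYP: all `b` are of the same type. -/
def TypStmt : Prop :=
  ∀ (p m : ℕ) (g h : ℤ[X]), Fb p m g h → ∀ (K : Type) [Field K] [CharZero K]
    (A : ValuationSubring K) (z : A), (p : A) ∈ maximalIdeal A → IsPrimitiveRoot z (p * m) →
    (∀ b : ℕ, b.Coprime m → TypC A m g h z b) →
    (∀ b : ℕ, b.Coprime m → ¬ Big A m g z b) ∨
      (∀ b : ℕ, b.Coprime m → ¬ Big A m h z b)

/-- ALG: the congruence modulo `p`. -/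
def AlgStmt : Prop :=
  ∀ (p m : ℕ) (g h : ℤ[X]), Fb p m g h → ∀ (K : Type) [Field K] [CharZero K]
    (A : ValuationSubring K) (z : A), (p : A) ∈ maximalIdeal A → IsPrimitiveRoot z (p * m) →
    (∀ b : ℕ, b.Coprime m → ¬ Big A m g z b) →
    LogC (red (ResidueField A) g.reverse) (red (ResidueField A) g) →
    g.natDegree < m.totient ^ 2 ∧ ∃ (ε : ℤ) (r : ℤ[X]), (ε = 1 ∨ ε = -1) ∧
      g.reverse - C ε * g = C (p : ℤ) * r ∧ r ≠ 0 ∧ r.natDegree ≤ g.natDegree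

/-- NGH: norms of `g` and `h`. -/
def NghStmt : Prop :=
  ∀ (n : ℕ) (g h : ℤ[X]), Fg n g h → ∀ (K : Type) [Field K] [NumberField K]
    [IsCyclotomicExtension {n} ℚ K] (z : K), IsPrimitiveRoot z n →
    |Algebra.norm ℚ (aeval z g)| * |Algebra.norm ℚ (aeval z h)| ≤ (n : ℚ) ^ n.totient

/-- NGR: the lower bound for the norm of `g`. -/
def NgrStmt : Prop :=
  ∀ (n p : ℕ) (g h r : ℤ[X]) (ε : ℤ), Fg n g h → (ε = 1 ∨ ε = -1) →
    g.reverse - C ε * g = C (p : ℤ) * r → r ≠ 0 → r.natDegree < n.totient →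
    ∀ (K : Type) [Field K] [NumberField K]
    [IsCyclotomicExtension {n} ℚ K] (z : K), IsPrimitiveRoot z n →
    (p : ℚ) ^ n.totient ≤ 2 ^ n.totient * |Algebra.norm ℚ (aeval z g)|

/-- PDV: the lower bound for the norm of `h`. -/
def PdvStmt : Prop :=
  ∀ (p m s : ℕ) (h : ℤ[X]), p.Prime → ¬ p ∣ m → 1 ≤ m →
    (∀ (L : Type) [Field L] [CharP L p] (a : L), IsPrimitiveRoot a m →
      red L h ≠ 0 ∧ s ≤ rootMultiplicity a (red L h) ∧ rootMultiplicity a (red L h) ≤ p - 2) →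
    ∀ (K : Type) [Field K] [NumberField K] [IsCyclotomicExtension {p * m} ℚ K] (z : K),
    IsPrimitiveRoot z (p * m) → aeval z h ≠ 0 →
    (p : ℚ) ^ (s * (p * m).totient) ≤ |Algebra.norm ℚ (aeval z h)| ^ (p - 1)

/-- NUM: the numerical contradiction. -/
def NumStmt : Prop :=
  ∀ (p m N : ℕ) (x y : ℚ), 12 * m ^ 2 ≤ p → 3 ≤ m → Odd p → 0 ≤ x → 0 ≤ y → 1 ≤ N →
    x * y ≤ ((p * m : ℕ) : ℚ) ^ N → (p : ℚ) ^ N ≤ 2 ^ N * x →
    (p : ℚ) ^ ((p - 1 - m.totient) * N) ≤ y ^ (p - 1) → False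

/-- MN2: there is no factorisation. -/
def Mn2Stmt : Prop := ∀ (p m : ℕ) (g h : ℤ[X]), ¬ Fb p m g h

/-- The theorem of part 2. -/
def Main2Stmt : Prop :=
  ∀ (p m : ℕ), p.Prime → Squarefree m → 12 * m ^ 2 ≤ p →
    Irreducible (derivative (cyclotomic (p * m) ℚ))

end Pool.Agent.CYD
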