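import Pool.Agent.Helper85_CYD.Defs

/-! # CYD: statements of the modules of part 1 (`n = p q`).
Architect: helper85.  Proofs: /team-store/PLAN_CYD.md -/

set_option autoImplicit false

open Polynomial IsLocalRing

namespace Pool.Agent.CYD

/-- GAL: automorphisms. -/
def GalStmt : Prop :=
  ∀ (p q : ℕ), p.Prime → q.Prime → p ≠ q →
    ∀ (K : Type) [Field K] [NumberField K] [IsCyclotomicExtension {p * q} ℚ K] (c w c' w' : K),
    IsPrimitiveRoot c q → IsPrimitiveRoot w p → IsPrimitiveRoot c' q → IsPrimitiveRoot w' p →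
    ∃ σ : K ≃ₐ[ℚ] K, σ c = c' ∧ σ w = w'

/-- EIS: the Eisenstein property. -/
def EisStmt : Prop :=
  ∀ (n p q : ℕ) (g h : ℤ[X]), Fac n p q g h → ∀ (K : Type) [Field K] [CharZero K]
    (A : ValuationSubring K) (c w : A), Loc p q A c w →
    ((q : ResidueField A) - 2) * residue A c ≠ (q : ResidueField A) → mu A g c = 0 ∨ mu A h c = 0

/-- TAM: the local form of `u(c w ^ k)`. -/
def TamStmt : Prop :=
  ∀ (n p q : ℕ) (g h : ℤ[X]), Fac n p q g h → ∀ (K : Type) [Field K] [CharZero K]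
    (A : ValuationSubring K) (c w : A), Loc p q A c w →
    ∃ C : ResidueField A, C ≠ 0 ∧ ∀ k : ℕ, ¬ p ∣ k → ∃ θ : A,
      residue A θ = (k : ResidueField A) ^ (ex A g q c) * C ∧
      uu g ((c : K) * (w : K) ^ k) = ((w : K) - 1) ^ (ex A g q c) * (θ : K)

/-- GEN: a Galois equivariant expression `Z(c, w)` of absolute value 1 which is a unit at all
valuation rings in which `p` is a unit: its inertia quotients are roots of unity. -/
def GenStmt : Prop :=
  ∀ (p q : ℕ), p.Prime → q.Prime → p ≠ 2 → q ≠ 2 → p ≠ q →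
    ∀ (K : Type) [Field K] [NumberField K] [IsCyclotomicExtension {p * q} ℚ K]
    (Z : K → K → K) (e : (A : ValuationSubring K) → A → ℤ),
    (∀ (σ : K ≃ₐ[ℚ] K) (x y : K), σ (Z x y) = Z (σ x) (σ y)) →
    (∀ (φ : K →+* ℂ) (c w : K), IsPrimitiveRoot c q → IsPrimitiveRoot w p → ‖φ (Z c w)‖ = 1) →
    (∀ (A : ValuationSubring K), IsUnit (p : A) → ∀ c w : K, IsPrimitiveRoot c q →
      IsPrimitiveRoot w p → Z c w ∈ A ∧ (Z c w)⁻¹ ∈ A) →
    (∀ (A : ValuationSubring K) (c w : A), Loc p q A c w → ∃ C : ResidueField A, C ≠ 0 ∧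
      ∀ k : ℕ, ¬ p ∣ k → ∃ θ : A, residue A θ = (k : ResidueField A) ^ (e A c) * C ∧
        Z (c : K) ((w : K) ^ k) = ((w : K) - 1) ^ (e A c) * (θ : K)) →
    ∀ (c w : K), IsPrimitiveRoot c q → IsPrimitiveRoot w p → ∀ k : ℕ, ¬ p ∣ k →
    ∃ (s : ℤ) (l : ℕ), (s = 1 ∨ s = -1) ∧
      ∀ (A : ValuationSubring K) (c' w' : A), (c' : K) = c → (w' : K) = w → Loc p q A c' w' →
      ∀ j : ℕ, ¬ q ∣ j →
        (k : ResidueField A) ^ (e A (c' ^ j)) = (s : ResidueField A) * residue A c' ^ (j * l)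

/-- SQR: the relation for `u(c w) u(c w⁻¹)`. -/
def SqrStmt : Prop :=
  ∀ (n p q : ℕ) (g h : ℤ[X]), Fac n p q g h →
    ∀ (K : Type) [Field K] [NumberField K] [IsCyclotomicExtension {p * q} ℚ K]
    (c w : K), IsPrimitiveRoot c q → IsPrimitiveRoot w p → ∀ k : ℕ, ¬ p ∣ k →
    ∃ (s : ℤ) (l : ℕ), (s = 1 ∨ s = -1) ∧
      ∀ (A : ValuationSubring K) (c' w' : A), (c' : K) = c → (w' : K) = w → Loc p q A c' w' →
      ∀ j : ℕ, ¬ q ∣ j →
        (k : ResidueField A) ^ (2 * ex A g q (c' ^ j)) =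
          (s : ResidueField A) * residue A c' ^ (j * l)

/-- LIN: the relation for `u(c w)` when all exponents above `q` vanish. -/
def LinStmt : Prop :=
  ∀ (n p q : ℕ) (g h : ℤ[X]), Fac n p q g h →
    ∀ (K : Type) [Field K] [NumberField K] [IsCyclotomicExtension {p * q} ℚ K],
    (∀ (A : ValuationSubring K) (w c : A), Loc q p A w c → ex A g p w = 0) →
    ∀ (c w : K), IsPrimitiveRoot c q → IsPrimitiveRoot w p → ∀ k : ℕ, ¬ p ∣ k →
    ∃ (s : ℤ) (l : ℕ), (s = 1 ∨ s = -1) ∧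
      ∀ (A : ValuationSubring K) (c' w' : A), (c' : K) = c → (w' : K) = w → Loc p q A c' w' →
      ∀ j : ℕ, ¬ q ∣ j →
        (k : ResidueField A) ^ (ex A g q (c' ^ j)) =
          (s : ResidueField A) * residue A c' ^ (j * l)

/-- VAL: the possible values of the exponents (from EIS and SUM). -/
def ValStmt : Prop :=
  ∀ (n p q : ℕ) (g h : ℤ[X]), Fac n p q g h → ∀ (K : Type) [Field K] [CharZero K]
    (A : ValuationSubring K) (c w : A), Loc p q A c w →
    |ex A g q c| ≤ p - 2 ∧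
    (((q : ResidueField A) - 2) * residue A c ≠ (q : ResidueField A) →
      ((q : ResidueField A) - 2) * residue A c ^ (q - 1) ≠ (q : ResidueField A) →
      ex A g q c = 0 ∨ ex A g q c = p - 2 ∨ ex A g q c = -((p : ℤ) - 2))

/-- S7: the exponents vanish, `q ≥ 7`. -/
def S7Stmt : Prop :=
  ∀ (n p q : ℕ) (g h : ℤ[X]), Fac n p q g h → 7 ≤ q → q < p →
    ∀ (K : Type) [Field K] [NumberField K] [IsCyclotomicExtension {p * q} ℚ K],
    (∀ (A : ValuationSubring K) (c w : A), Loc p q A c w → ex A g q c = 0) ∧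
    (∀ (A : ValuationSubring K) (w c : A), Loc q p A w c → ex A g p w = 0)

/-- S5: the exponents vanish, `q = 5`. -/
def S5Stmt : Prop :=
  ∀ (n p : ℕ) (g h : ℤ[X]), Fac n p 5 g h → 5 < p → p ≠ 11 →
    ∀ (K : Type) [Field K] [NumberField K] [IsCyclotomicExtension {p * 5} ℚ K],
    (∀ (A : ValuationSubring K) (c w : A), Loc p 5 A c w → ex A g 5 c = 0) ∧
    (∀ (A : ValuationSubring K) (w c : A), Loc 5 p A w c → ex A g p w = 0)

/-- S3: the exponents above `p` vanish, `q = 3`. -/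
def S3Stmt : Prop :=
  ∀ (n p : ℕ) (g h : ℤ[X]), Fac n p 3 g h → 3 < p → p ≠ 7 → p ≠ 13 →
    ∀ (K : Type) [Field K] [NumberField K] [IsCyclotomicExtension {p * 3} ℚ K]
    (A : ValuationSubring K) (c w : A), Loc p 3 A c w → ex A g 3 c = 0

/-- UNI: if all exponents vanish then `u` is a root of unity. -/
def UniStmt : Prop :=
  ∀ (n p q : ℕ) (g h : ℤ[X]), Fac n p q g h →
    ∀ (K : Type) [Field K] [NumberField K] [IsCyclotomicExtension {p * q} ℚ K],
    (∀ (A : ValuationSubring K) (c w : A), Loc p q A c w → ex A g q c = 0) →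
    (∀ (A : ValuationSubring K) (w c : A), Loc q p A w c → ex A g p w = 0) →
    ∃ (ε : ℤ) (j j' : ℕ), (ε = 1 ∨ ε = -1) ∧ (j + j') % n = 1 ∧
      cyclotomic n ℤ ∣ X ^ j * g - C ε * g.reverse ∧
      cyclotomic n ℤ ∣ X ^ j' * h + C ε * h.reverse

/-- WMU: multiplicity of the Wronskian. -/
def WmuStmt : Prop :=
  ∀ (L : Type) [Field L] (G H : L[X]) (ε b : L) (j s M : ℕ), ε ≠ 0 →
    (X - C b) ^ M ∣ X ^ j * G - C ε * H → (X - C b) ^ s ∣ G →
    (X - C b) ^ (s + M - 1) ∣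
      C (j : L) * G * H + H * (X * derivative G) - G * (X * derivative H)

/-- BND: the counting argument at one prime. -/
def BndStmt : Prop :=
  ∀ (n p q : ℕ) (g h : ℤ[X]), Fac n p q g h → 5 ≤ p → ¬ p ∣ q - 1 →
    ∀ (ε : ℤ) (j j' : ℕ), (ε = 1 ∨ ε = -1) → (j + j') % n = 1 →
    cyclotomic n ℤ ∣ X ^ j * g - C ε * g.reverse →
    cyclotomic n ℤ ∣ X ^ j' * h + C ε * h.reverse →
    (p ∣ j ∧ g.natDegree + 4 ≤ 2 * q) ∨ (p ∣ j' ∧ h.natDegree + 4 ≤ 2 * q)

/-- FIN: contradiction, `q ≥ 5`. -/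
def FinStmt : Prop :=
  ∀ (n p q : ℕ) (g h : ℤ[X]), Fac n p q g h → 5 ≤ q → q < p →
    ∀ (ε : ℤ) (j j' : ℕ), (ε = 1 ∨ ε = -1) → (j + j') % n = 1 →
    cyclotomic n ℤ ∣ X ^ j * g - C ε * g.reverse →
    cyclotomic n ℤ ∣ X ^ j' * h + C ε * h.reverse → False

/-- T3: contradiction, `q = 3`. -/
def T3Stmt : Prop :=
  ∀ (n p : ℕ) (g h : ℤ[X]), Fac n p 3 g h → 3 < p → ∀ (L : Type) [Field L] [CharP L p] (a : L),
    IsPrimitiveRoot a 3 →
    rootMultiplicity a (red L g) = rootMultiplicity (a ^ 2) (red L g) →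
    (rootMultiplicity a (red L g) = 0 ∨ rootMultiplicity a (red L h) = 0) → False

/-- C21, C39, C55: certificates. -/
def CertStmt (n : ℕ) : Prop := Irreducible (derivative (cyclotomic n ℚ))

/-- The theorem of part 1. -/
def Main1Stmt : Prop :=
  ∀ (p q : ℕ), p.Prime → q.Prime → p ≠ 2 → q ≠ 2 → p ≠ q →
    Irreducible (derivative (cyclotomic (p * q) ℚ)) ∧
      Irreducible (derivative (cyclotomic (2 * (p * q)) ℚ))

end Pool.Agent.CYD
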