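import Pool.Agent.Helper85_CYD.Defs

/-! # CYD: statements of the general modules.  Architect: helper85.
Proofs: /team-store/PLAN_CYD.md -/

set_option autoImplicit false

open Polynomial IsLocalRing

namespace Pool.Agent.CYD

/-- DISC: all complex zeros of the derivative lie in the open unit disc. -/
def DiscStmt : Prop :=
  ∀ n : ℕ, 0 < n → ∀ z : ℂ, 1 ≤ ‖z‖ → aeval z (derivative (cyclotomic n ℤ)) ≠ 0

/-- COE: the first two coefficients. -/
def CoeStmt : Prop :=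
  ∀ n : ℕ, Squarefree n → 2 ≤ n →
    (cyclotomic n ℤ).coeff 0 = 1 ∧ ((cyclotomic n ℤ).coeff 1 = 1 ∨ (cyclotomic n ℤ).coeff 1 = -1)

/-- BAS: degrees and coefficients of the factors. -/
def BasStmt : Prop :=
  ∀ (n : ℕ) (g h : ℤ[X]), Fg n g h →
    (g.coeff 0 = 1 ∨ g.coeff 0 = -1) ∧ 2 ≤ |g.leadingCoeff| ∧
      g.leadingCoeff * h.leadingCoeff = ((n.totient : ℕ) : ℤ) ∧
      g.natDegree + h.natDegree + 1 = n.totient

/-- REV: `x Φ' + (Φ')* = φ(n) Φ`. -/
def RevStmt : Prop :=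
  ∀ n : ℕ, 3 ≤ n → X * derivative (cyclotomic n ℤ) + (derivative (cyclotomic n ℤ)).reverse =
    C ((n.totient : ℕ) : ℤ) * cyclotomic n ℤ

/-- DVD: `g` divides `n` modulo `Φ_n`. -/
def DvdStmt : Prop :=
  ∀ (n : ℕ) (g h : ℤ[X]), Fg n g h → ∃ v : ℤ[X], cyclotomic n ℤ ∣ g * h * v - C (n : ℤ)

/-- AWY: `g(x)` is a unit where `n` is a unit. -/
def AwyStmt : Prop :=
  ∀ (n : ℕ) (g h : ℤ[X]), Fg n g h → ∀ (K : Type) [Field K] [CharZero K]
    (A : ValuationSubring K) (x : A), IsUnit (n : A) → IsPrimitiveRoot x n →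
    IsUnit (aeval x g) ∧ IsUnit (aeval x g.reverse)

/-- ABS: `|u(x)| = 1` for all embeddings. -/
def AbsStmt : Prop :=
  ∀ (n : ℕ) (g h : ℤ[X]), Fg n g h → ∀ (K : Type) [Field K] [CharZero K]
    (x : K), IsPrimitiveRoot x n →
    aeval x g ≠ 0 ∧ aeval x g.reverse ≠ 0 ∧ ∀ φ : K →+* ℂ, ‖φ (uu g x)‖ = 1

/-- KRO: Kronecker's theorem in the form we need. -/
def KroStmt : Prop :=
  ∀ n : ℕ, Odd n → ∀ (K : Type) [Field K] [NumberField K] [IsCyclotomicExtension {n} ℚ K]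
    (y z : K), IsPrimitiveRoot z n → (∀ A : ValuationSubring K, y ∈ A) →
    (∀ φ : K →+* ℂ, ‖φ y‖ = 1) →
    ∃ (s : ℤ) (i : ℕ), (s = 1 ∨ s = -1) ∧ y = s * z ^ i

/-- UNR: `p` is unramified in the field of the `m`-th roots of unity, `p ∤ m`. -/
def UnrStmt : Prop :=
  ∀ (K : Type) [Field K] [CharZero K] (A : ValuationSubring K) (p m : ℕ) (c : A) (F : ℤ[X]),
    p.Prime → ¬ p ∣ m → (p : A) ∈ maximalIdeal A → c ^ m = 1 →
    aeval (residue A c) F = 0 → (p : A) ∣ aeval c F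

/-- RAM: `p` is `(w - 1)^(p - 1)` times a unit. -/
def RamStmt : Prop :=
  ∀ (K : Type) [Field K] [CharZero K] (A : ValuationSubring K) (p : ℕ) (w : A),
    p.Prime → (p : A) ∈ maximalIdeal A → IsPrimitiveRoot w p →
    w - 1 ∈ maximalIdeal A ∧ Associated (p : A) ((w - 1) ^ (p - 1)) ∧
    ∀ k : ℕ, ∃ t : A, w ^ k - 1 = (w - 1) * t ∧ residue A t = (k : ResidueField A)

/-- LOC: the local form of `f(c w ^ k)`. -/
def LocStmt : Prop :=
  ∀ (K : Type) [Field K] [CharZero K] (A : ValuationSubring K) (p m : ℕ) (c w : A) (f : ℤ[X]),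
    p.Prime → ¬ p ∣ m → (p : A) ∈ maximalIdeal A → c ^ m = 1 → IsPrimitiveRoot w p →
    red (ResidueField A) f ≠ 0 → mu A f c ≤ p - 2 →
    ∃ C : ResidueField A, C ≠ 0 ∧ ∀ k : ℕ, ¬ p ∣ k → ∃ θ : A,
      residue A θ = (k : ResidueField A) ^ (mu A f c) * C ∧
      aeval (c * w ^ k) f = (w - 1) ^ (mu A f c) * θ

/-- SUM: the multiplicities of `g` and `h` add up to `l - 2`. -/
def SumStmt : Prop :=
  ∀ (n l m : ℕ) (g h : ℤ[X]), Fg n g h → l.Prime → n = l * m →
    ∀ (L : Type) [Field L] [CharP L l] (a : L), IsPrimitiveRoot a m →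
    red L g ≠ 0 ∧ rootMultiplicity a (red L g) + rootMultiplicity a (red L h) = l - 2

/-- FRO: Frobenius. -/
def FroStmt : Prop :=
  ∀ (L : Type) [Field L] (p : ℕ) [Fact p.Prime] [CharP L p] (f : ℤ[X]) (a : L),
    rootMultiplicity (a ^ p) (red L f) = rootMultiplicity a (red L f)

/-- RMU: the multiplicities of the reverse. -/
def RmuStmt : Prop :=
  ∀ (L : Type) [Field L] (f : ℤ[X]) (a b : L), a * b = 1 →
    rootMultiplicity a (red L f.reverse) = rootMultiplicity b (red L f) ∧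
      aeval a f.reverse = a ^ f.natDegree * aeval b f

/-- SPL: splitting of a primitive root of unity of order `l * m`. -/
def SplStmt : Prop :=
  ∀ (K : Type) [Field K] [CharZero K] (A : ValuationSubring K) (l m : ℕ) (z : A),
    l.Prime → 1 ≤ m → ¬ l ∣ m → IsPrimitiveRoot z (l * m) →
    ∃ c w : A, IsPrimitiveRoot c m ∧ IsPrimitiveRoot w l ∧ z = c * w ∧
      ((l : A) ∈ maximalIdeal A → residue A c = residue A z ∧ residue A w = 1 ∧
        IsPrimitiveRoot (residue A z) m)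

/-- TRF: the multiplicities do not depend on the field. -/
def TrfStmt : Prop :=
  ∀ (p m : ℕ) (f : ℤ[X]), p.Prime → 1 ≤ m → ¬ p ∣ m → ∀ (L L' : Type) [Field L] [Field L']
    [CharP L p] [CharP L' p] (a : L) (a' : L'), IsPrimitiveRoot a m → IsPrimitiveRoot a' m →
    ∃ b : ℕ, b.Coprime m ∧
      rootMultiplicity a' (red L' f) = rootMultiplicity (a ^ b) (red L f)

/-- CLM: one of the two multiplicities is small. -/
def ClmStmt : Prop :=
  ∀ (p m : ℕ) (g h : ℤ[X]), p.Prime → 3 ≤ m → m < p → Fg (p * m) g h →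
    ∀ (L : Type) [Field L] [CharP L p] (a : L), IsPrimitiveRoot a m →
    rootMultiplicity a (red L g) < m.totient ∨ rootMultiplicity a (red L h) < m.totient

/-- EXA: existence of valuation rings. -/
def ExaStmt : Prop :=
  ∀ (K : Type) [Field K] [CharZero K] (l : ℕ), l.Prime →
    ∃ A : ValuationSubring K, (l : A) ∈ maximalIdeal A

/-- RED: Gauss's lemma. -/
def RedStmt : Prop :=
  ∀ n : ℕ, 3 ≤ n → Odd n → Squarefree n → (∀ g h : ℤ[X], ¬ Fg n g h) →
    Irreducible (derivative (cyclotomic n ℚ))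

/-- DBL: twice the order. -/
def DblStmt : Prop :=
  ∀ n : ℕ, Odd n → 1 < n → Irreducible (derivative (cyclotomic n ℚ)) →
    Irreducible (derivative (cyclotomic (2 * n) ℚ))

/-- PRM: prime order (Eisenstein). -/
def PrmStmt : Prop :=
  ∀ p : ℕ, p.Prime → p ≠ 2 → Irreducible (derivative (cyclotomic p ℚ))

end Pool.Agent.CYD
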