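import Pool.Agent.Helper85_CYD.StG
import Pool.Agent.Helper85_CYD.St1

/-! # CYD: assembly of part 1.  helper85 -/

set_option autoImplicit false

open Polynomial IsLocalRing

namespace Pool.Agent.CYD

/-- a local situation inside the cyclotomic field -/
theorem exists_loc (hExa : ExaStmt) {p q : ℕ} (hp : p.Prime) (hq : q.Prime) (hpq : p ≠ q)
    (K : Type) [Field K] [NumberField K] [IsCyclotomicExtension {p * q} ℚ K] :
    ∃ (A : ValuationSubring K) (c w : A), Loc p q A c w := by
  have hpos : p * q ≠ 0 := Nat.mul_ne_zero hp.ne_zero hq.ne_zero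
  have : NeZero (p * q) := ⟨hpos⟩
  obtain ⟨A, hA⟩ := hExa K p hp
  have hζ : IsPrimitiveRoot (IsCyclotomicExtension.zeta (p * q) ℚ K) (p * q) :=
    IsCyclotomicExtension.zeta_spec (p * q) ℚ K
  have hmem : IsCyclotomicExtension.zeta (p * q) ℚ K ∈ A := by
    have hi : IsIntegral ℤ (IsCyclotomicExtension.zeta (p * q) ℚ K) :=
      hζ.isIntegral (Nat.pos_of_ne_zero hpos)
    have hi2 : IsIntegral A (IsCyclotomicExtension.zeta (p * q) ℚ K) := hi.tower_top
    obtain ⟨y, hy⟩ := IsIntegrallyClosed.isIntegral_iff.mp hi2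
    rw [← hy]; exact y.2
  obtain ⟨z, hzeq⟩ : ∃ z : A, (z : K) = IsCyclotomicExtension.zeta (p * q) ℚ K :=
    ⟨⟨_, hmem⟩, rfl⟩
  have hz : IsPrimitiveRoot z (p * q) := by
    refine IsPrimitiveRoot.of_map_of_injective (f := A.subtype) ?_ Subtype.coe_injective
    simp [hzeq, hζ]
  refine ⟨A, z ^ p, z ^ q, hA, ?_, ?_⟩
  · exact hz.pow (Nat.pos_of_ne_zero hpos) rfl
  · exact hz.pow (Nat.pos_of_ne_zero hpos) (mul_comm p q)

theorem no_fac5 (hExa : ExaStmt) (hS7 : S7Stmt) (hS5 : S5Stmt) (hUni : UniStmt) (hFin : FinStmt)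
    {p q : ℕ} {g h : ℤ[X]} (hq5 : 5 ≤ q) (hqp : q < p) (hne : p * q ≠ 55)
    (F : Fac (p * q) p q g h) : False := by
  have hpos : p * q ≠ 0 := Nat.mul_ne_zero F.hp.ne_zero F.hq.ne_zero
  have : NeZero (p * q) := ⟨hpos⟩
  have key : ∀ (K : Type) [Field K] [NumberField K] [IsCyclotomicExtension {p * q} ℚ K],
      False := by
    intro K _ _ _
    have hall : (∀ (A : ValuationSubring K) (c w : A), Loc p q A c w → ex A g q c = 0) ∧
        (∀ (A : ValuationSubring K) (w c : A), Loc q p A w c → ex A g p w = 0) := by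
      rcases Nat.lt_or_ge q 7 with h7 | h7
      · have hq : q = 5 := by
          have := F.hq
          interval_cases q
          · rfl
          · exact absurd this (by decide)
        subst hq
        exact hS5 _ p g h F hqp (fun h11 => hne (by rw [h11])) K
      · exact hS7 _ p q g h F h7 hqp K
    obtain ⟨ε, j, j', hε, hj, h1, h2⟩ := hUni _ p q g h F K hall.1 hall.2
    exact hFin _ p q g h F hq5 hqp ε j j' hε hj h1 h2
  have : NeZero ((p * q : ℕ) : ℚ) := ⟨by exact_mod_cast hpos⟩
  have hI : @IsCyclotomicExtension {p * q} ℚ (CyclotomicField (p * q) ℚ) _ _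
      DivisionRing.toRatAlgebra := by
    have e : (DivisionRing.toRatAlgebra : Algebra ℚ (CyclotomicField (p * q) ℚ)) =
        CyclotomicField.algebra (p * q) ℚ := Subsingleton.elim _ _
    rw [e]
    exact CyclotomicField.isCyclotomicExtension (p * q) ℚ
  exact key (CyclotomicField (p * q) ℚ)

theorem no_fac3 (hExa : ExaStmt) (hS3 : S3Stmt) (hVal : ValStmt) (hSum : SumStmt)
    (hEis : EisStmt) (hT3 : T3Stmt)
    {p : ℕ} {g h : ℤ[X]} (hp3 : 3 < p) (h7 : p ≠ 7) (h13 : p ≠ 13)
    (F : Fac (p * 3) p 3 g h) : False := by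
  have hpos : p * 3 ≠ 0 := Nat.mul_ne_zero F.hp.ne_zero (by norm_num)
  have : NeZero (p * 3) := ⟨hpos⟩
  have key : ∀ (K : Type) [Field K] [NumberField K] [IsCyclotomicExtension {p * 3} ℚ K],
      False := by
    intro K _ _ _
    obtain ⟨A, c, w, L⟩ := exists_loc hExa F.hp (by norm_num : (3 : ℕ).Prime) (by omega) K
    have hex := hS3 _ p g h F hp3 h7 h13 K A c w L
    have hchar : CharP (ResidueField A) p := by
      have h0 : ((p : ℕ) : ResidueField A) = 0 := by
        have := (residue_eq_zero_iff (R := A) (p : A)).mpr L.hm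
        simpa using this
      exact (CharP.charP_iff_prime_eq_zero F.hp).mpr h0
    have hbr : NeZero ((3 : ℕ) : ResidueField A) := by
      refine ⟨fun h0 => ?_⟩
      have := (CharP.cast_eq_zero_iff (ResidueField A) p 3).mp h0
      have := Nat.le_of_dvd (by norm_num) this
      omega
    have hc3 : IsPrimitiveRoot (residue A c) 3 := by
      have h1 : (residue A c) ^ 3 = 1 := by rw [← map_pow, L.hc.pow_eq_one, map_one]
      have h2 : residue A c ≠ 1 := by
        intro h2
        have h3 : 1 + c + c ^ 2 = 0 := by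
          have := L.hc.geom_sum_eq_zero (by norm_num)
          simpa [Finset.sum_range_succ] using this
        have h4 : (3 : ResidueField A) = 0 := by
          have := congrArg (residue A) h3
          simp only [map_add, map_one, map_pow, map_zero, h2] at this
          rw [← this]; norm_num
        exact hbr.out (by exact_mod_cast h4)
      exact IsPrimitiveRoot.mk_of_lt _ (by norm_num) h1 (by
        intro l hl0 hl3 hl
        have hl12 : l = 1 ∨ l = 2 := by omega
        rcases hl12 with rfl | rfl
        · exact h2 (by simpa using hl)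
        · apply h2
          calc residue A c = residue A c * (residue A c) ^ 2 := by rw [hl, mul_one]
            _ = (residue A c) ^ 3 := by ring
            _ = 1 := h1)
    have hsq : rootMultiplicity (residue A c) (red (ResidueField A) g) =
        rootMultiplicity (residue A c ^ 2) (red (ResidueField A) g) := by
      unfold ex mu at hex
      rw [map_pow] at hex
      have : (3 - 1 : ℕ) = 2 := rfl
      rw [this] at hex
      omega
    have hnd : (((3 : ℕ) : ResidueField A) - 2) * residue A c ≠ ((3 : ℕ) : ResidueField A) := by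
      intro h1
      have h2 : residue A c = 3 := by
        have h3 : (((3 : ℕ) : ResidueField A) - 2) = 1 := by norm_num
        rw [h3, one_mul] at h1
        rw [h1]; norm_num
      have h4 := hc3.pow_eq_one
      rw [h2] at h4
      have h5 : ((26 : ℕ) : ResidueField A) = 0 := by
        have : (3 : ResidueField A) ^ 3 - 1 = 0 := by rw [h4]; ring
        rw [← this]; norm_num
      have h6 := (CharP.cast_eq_zero_iff (ResidueField A) p 26).mp h5
      have h7 : p ∣ 2 * 13 := by norm_num; exact h6
      rcases (F.hp.dvd_mul).mp h7 with h8 | h8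
      · have := Nat.le_of_dvd (by norm_num) h8; omega
      · have := (Nat.prime_dvd_prime_iff_eq F.hp (by norm_num)).mp h8
        exact h13 this
    exact hT3 _ p g h F hp3 (ResidueField A) (residue A c) hc3 hsq (hEis _ p 3 g h F K A c w L hnd)
  have : NeZero ((p * 3 : ℕ) : ℚ) := ⟨by exact_mod_cast hpos⟩
  have hI : @IsCyclotomicExtension {p * 3} ℚ (CyclotomicField (p * 3) ℚ) _ _
      DivisionRing.toRatAlgebra := by
    have e : (DivisionRing.toRatAlgebra : Algebra ℚ (CyclotomicField (p * 3) ℚ)) =
        CyclotomicField.algebra (p * 3) ℚ := Subsingleton.elim _ _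
    rw [e]
    exact CyclotomicField.isCyclotomicExtension (p * 3) ℚ
  exact key (CyclotomicField (p * 3) ℚ)

theorem main1_of (hExa : ExaStmt) (hS7 : S7Stmt) (hS5 : S5Stmt) (hUni : UniStmt) (hFin : FinStmt)
    (hS3 : S3Stmt) (hVal : ValStmt) (hSum : SumStmt) (hEis : EisStmt) (hT3 : T3Stmt)
    (hRed : RedStmt) (hDbl : DblStmt) (h21 : CertStmt 21) (h39 : CertStmt 39)
    (h55 : CertStmt 55) : Main1Stmt := by
  have main : ∀ (p q : ℕ), p.Prime → q.Prime → p ≠ 2 → q ≠ 2 → q < p →
      Irreducible (derivative (cyclotomic (p * q) ℚ)) := by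
    intro p q hp hq hp2 hq2 hqp
    have hpo : Odd p := hp.odd_of_ne_two hp2
    have hqo : Odd q := hq.odd_of_ne_two hq2
    have hq3 : 3 ≤ q := by
      have := hq.two_le
      omega
    have hn3 : 3 ≤ p * q := by nlinarith
    have hsq : Squarefree (p * q) :=
      (Nat.squarefree_mul ((Nat.coprime_primes hp hq).mpr (by omega))).mpr
        ⟨hp.squarefree, hq.squarefree⟩
    have hfac : ∀ g h : ℤ[X], Fg (p * q) g h → Fac (p * q) p q g h := fun g h F =>
      ⟨rfl, hp, hq, hp2, hq2, by omega, F.fac, F.hg, F.hh⟩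
    by_cases hc : p * q = 21
    · rw [hc]; exact h21
    by_cases hc1 : p * q = 39
    · rw [hc1]; exact h39
    by_cases hc2 : p * q = 55
    · rw [hc2]; exact h55
    refine hRed (p * q) hn3 (hpo.mul hqo) hsq (fun g h F => ?_)
    have F' := hfac g h F
    rcases Nat.lt_or_ge q 5 with h5 | h5
    · have hq' : q = 3 := by
        interval_cases q
        · rfl
        · exact absurd hq (by decide)
      subst hq'
      exact no_fac3 hExa hS3 hVal hSum hEis hT3 hqp (fun h7 => hc (by rw [h7]))
        (fun h7 => hc1 (by rw [h7])) F'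
    · exact no_fac5 hExa hS7 hS5 hUni hFin h5 hqp hc2 F'
  intro p q hp hq hp2 hq2 hpq
  have hpo : Odd p := hp.odd_of_ne_two hp2
  have hqo : Odd q := hq.odd_of_ne_two hq2
  have hn1 : 1 < p * q := by
    have := hp.two_le
    have := hq.two_le
    nlinarith
  have h1 : Irreducible (derivative (cyclotomic (p * q) ℚ)) := by
    rcases Nat.lt_or_ge q p with hlt | hge
    · exact main p q hp hq hp2 hq2 hlt
    · rw [mul_comm]
      exact main q p hq hp hq2 hp2 (by omega)
  exact ⟨h1, hDbl (p * q) (hpo.mul hqo) hn1 h1⟩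

end Pool.Agent.CYD
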