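import Pool.Agent.Helper85_CYD.StG
import Pool.Agent.Helper85_CYD.St2

/-! # CYD: assembly of part 2.  helper85 -/

set_option autoImplicit false

open Polynomial IsLocalRing

namespace Pool.Agent.CYD

theorem coprime_of_mod {b b' m : ℕ} (h : b ≡ b' [MOD m]) (hb : b.Coprime m) : b'.Coprime m := by
  have := h.gcd_eq
  unfold Nat.Coprime at *
  rw [← this]; exact hb

/-- the logarithmic derivatives are constant -/
theorem typC_all (hRpb : RpbStmt) (hWpd : WpdStmt) (hLst : LstStmt) (hOpr : OprStmt)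
    (hRpw : RpwStmt) (hWro : WroStmt) (hDes : DesStmt) (hAbs : AbsStmt)
    {p m : ℕ} {g h : ℤ[X]} (F : Fb p m g h) (K : Type) [Field K] [NumberField K]
    [IsCyclotomicExtension {p * m} ℚ K] (A : ValuationSubring K) (z : A)
    (hA : (p : A) ∈ maximalIdeal A) (hz : IsPrimitiveRoot z (p * m)) (b : ℕ) (hb : b.Coprime m) :
    TypC A m g h z b := by
  classical
  obtain ⟨A', B', hd, hper, hrep, htyp⟩ := hRpb p m g h F K A z hA hz
  obtain ⟨T, hT1, hT2, hT3⟩ := hLst p m F.hp F.hm F.odd F.sqf F.hpm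
  have hzK : IsPrimitiveRoot (z : K) (p * m) := by
    have := hz.map_of_injective (f := A.subtype) Subtype.coe_injective
    simpa using this
  have hm1 : 1 ≤ m := le_trans (by norm_num) F.hm
  have hchar : CharP (ResidueField A) p := by
    have h0 : ((p : ℕ) : ResidueField A) = 0 := by
      have := (residue_eq_zero_iff (R := A) (p : A)).mpr hA
      simpa using this
    exact (CharP.charP_iff_prime_eq_zero F.hp).mpr h0
  have hu : ∀ k : ℕ, k.Coprime (p * m) → uu g ((z : K) ^ k) ≠ 0 := by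
    intro k hk
    have h1 : IsPrimitiveRoot ((z : K) ^ k) (p * m) := hzK.pow_of_coprime k hk
    obtain ⟨h2, h3, -⟩ := hAbs (p * m) g h F.F K _ h1
    exact div_ne_zero h3 h2
  have hW := hWpd (ResidueField A) m (3 * m.totient) A' B' T
    (fun x hx => le_trans (by norm_num) (hT1 x hx).2.2.1) hd hper
  have hRw := hRpw p m K A z (fun k => uu g ((z : K) ^ k)) A' B' (2 * m.totient) F.hp hA hu hrep T
    (fun x hx => ⟨(hT1 x hx).1, (hT1 x hx).2.1⟩)
  have key : ∀ b : ℕ, b.Coprime m → ∃ c : ResidueField A,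
      (WP A' B' T b).1 = C c * (WP A' B' T b).2 := by
    intro b hb
    obtain ⟨k, hk1, hk2⟩ := Nat.chineseRemainder F.cop 1 b
    have hkp : k.Coprime p := coprime_of_mod hk1.symm (by simp)
    have hkm : k.Coprime m := coprime_of_mod hk2.symm hb
    have hk : k.Coprime (p * m) := Nat.Coprime.mul_right hkp hkm
    obtain ⟨s, i, hs, hw⟩ := hOpr (p * m) g h F.F K (z : K) T hzK (fun x hx => (hT1 x hx).1) hT2 k hk
    have h1 := hRw k 1 hk hk1
    simp only [Nat.cast_one, C_1, one_mul, expand_one] at h1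
    rw [hW.2 k b hk2] at h1
    have hp3 : (WP A' B' T b).1.natDegree + 2 ^ T.length * (2 * m.totient) + 2 < p := by
      have := (hW.1 b).2.1
      omega
    have hp4 : (WP A' B' T b).2.natDegree + 2 ^ T.length * (2 * m.totient) + 2 < p := by
      have := (hW.1 b).2.2
      omega
    exact hWro p m F.hp F.ndvd hm1 K A z _ _ _ _ s i hA hz h1 hs hw hp3 hp4
  obtain ⟨c, hc⟩ := hDes (ResidueField A) p m F.hp hm1 A' B' (fun b => (hd b).1) hper T
    (fun x hx => ⟨Nat.Coprime.coprime_dvd_right (Dvd.intro_left p rfl) (hT1 x hx).1,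
      (hT1 x hx).2.2.1, (hT1 x hx).2.2.2⟩) key b hb
  exact htyp b hb c hc

/-- the contradiction when `g` has no big `b` -/
theorem end_g (hRpb : RpbStmt) (hWpd : WpdStmt) (hLst : LstStmt) (hOpr : OprStmt)
    (hRpw : RpwStmt) (hWro : WroStmt) (hDes : DesStmt) (hAbs : AbsStmt)
    (hSum : SumStmt) (hTrf : TrfStmt) (hAlg : AlgStmt) (hNgh : NghStmt) (hNgr : NgrStmt)
    (hPdv : PdvStmt) (hNum : NumStmt)
    {p m : ℕ} {g h : ℤ[X]} (F : Fb p m g h) (K : Type) [Field K] [NumberField K]
    [IsCyclotomicExtension {p * m} ℚ K] (A : ValuationSubring K) (z : A)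
    (hA : (p : A) ∈ maximalIdeal A) (hz : IsPrimitiveRoot z (p * m))
    (hres : IsPrimitiveRoot (residue A z) m)
    (hbig : ∀ b : ℕ, b.Coprime m → ¬ Big A m g z b) : False := by
  classical
  have hm1 : 1 ≤ m := le_trans (by norm_num) F.hm
  have hm3 := F.hm
  have hzK : IsPrimitiveRoot (z : K) (p * m) := by
    have := hz.map_of_injective (f := A.subtype) Subtype.coe_injective
    simpa using this
  have hchar : CharP (ResidueField A) p := by
    have h0 : ((p : ℕ) : ResidueField A) = 0 := by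
      have := (residue_eq_zero_iff (R := A) (p : A)).mpr hA
      simpa using this
    exact (CharP.charP_iff_prime_eq_zero F.hp).mpr h0
  have htyp := typC_all hRpb hWpd hLst hOpr hRpw hWro hDes hAbs F K A z hA hz
  have hneg : ((m - 1) * 1).Coprime m := by
    rw [mul_one]
    obtain ⟨j, hj⟩ : ∃ j, m = j + 1 := ⟨m - 1, by omega⟩
    rw [hj]; simp
  have hlog : LogC (red (ResidueField A) g.reverse) (red (ResidueField A) g) :=
    (htyp 1 (by simp)).1 (hbig 1 (by simp)) (hbig _ hneg)
  obtain ⟨hdeg, ε, r, hε, hr, hr0, hrd⟩ := hAlg p m g h F K A z hA hz hbig hlog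
  have htot : (p * m).totient = (p - 1) * m.totient := by
    rw [Nat.totient_mul F.cop, Nat.totient_prime F.hp]
  have hmt : m.totient < m := Nat.totient_lt m (by omega)
  have hmt1 : 1 ≤ m.totient := Nat.totient_pos.mpr (by omega)
  have hpm := F.hpm
  have hsq : m * m.totient < p - 1 := by
    have h1 : m * m.totient ≤ m * m := Nat.mul_le_mul_left m hmt.le
    have h2 : 9 ≤ m * m := Nat.mul_le_mul hm3 hm3
    have h3 : m ^ 2 = m * m := sq m
    omega
  have hr3 : r.natDegree < (p * m).totient := by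
    rw [htot]
    have : m.totient ^ 2 ≤ (p - 1) * m.totient := by nlinarith
    omega
  have e1 := hNgh (p * m) g h F.F K (z : K) hzK
  have e2 := hNgr (p * m) p g h r ε F.F hε hr hr0 hr3 K (z : K) hzK
  have hmul : ∀ (L : Type) [Field L] [CharP L p] (a : L), IsPrimitiveRoot a m →
      red L h ≠ 0 ∧ (p - 1 - m.totient) ≤ rootMultiplicity a (red L h) ∧
        rootMultiplicity a (red L h) ≤ p - 2 := by
    intro L _ _ a ha
    obtain ⟨-, h2⟩ := hSum (p * m) p m g h F.F F.hp rfl L a ha
    obtain ⟨h0, -⟩ := hSum (p * m) p m h g F.F.swap F.hp rfl L a ha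
    obtain ⟨b, hb, hb2⟩ := hTrf p m g F.hp hm1 F.ndvd (ResidueField A) L (residue A z) a hres ha
    have h4 : ¬ m.totient ≤ rootMultiplicity (residue A z ^ b) (red (ResidueField A) g) := by
      have := hbig b hb
      unfold Big mu at this
      rwa [map_pow] at this
    refine ⟨h0, ?_, ?_⟩ <;> omega
  have hh0 : aeval (z : K) h ≠ 0 := (hAbs (p * m) h g F.F.swap K _ hzK).1
  have e3 := hPdv p m (p - 1 - m.totient) h F.hp F.ndvd hm1 hmul K (z : K) hzK hh0
  have hodd : Odd p := by
    refine F.hp.odd_of_ne_two ?_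
    nlinarith [F.hpm]
  have hN1 : 1 ≤ (p * m).totient := by
    have : 0 < p * m := Nat.mul_pos F.hp.pos (by omega)
    exact Nat.totient_pos.mpr this
  exact hNum p m (p * m).totient _ _ F.hpm F.hm hodd (abs_nonneg _) (abs_nonneg _) hN1 e1 e2 e3

theorem mn2_of (hRpb : RpbStmt) (hWpd : WpdStmt) (hLst : LstStmt) (hOpr : OprStmt)
    (hRpw : RpwStmt) (hWro : WroStmt) (hDes : DesStmt) (hAbs : AbsStmt)
    (hSum : SumStmt) (hTrf : TrfStmt) (hAlg : AlgStmt) (hNgh : NghStmt) (hNgr : NgrStmt)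
    (hPdv : PdvStmt) (hNum : NumStmt) (hTyp : TypStmt) (hExa : ExaStmt) (hSpl : SplStmt) :
    Mn2Stmt := by
  intro p m g h F
  have hm1 : 1 ≤ m := le_trans (by norm_num) F.hm
  have hpos : p * m ≠ 0 := Nat.mul_ne_zero F.hp.ne_zero (by omega)
  have : NeZero (p * m) := ⟨hpos⟩
  have key : ∀ (K : Type) [Field K] [NumberField K] [IsCyclotomicExtension {p * m} ℚ K],
      False := by
    intro K _ _ _
    obtain ⟨A, hA⟩ := hExa K p F.hp
    have hζ : IsPrimitiveRoot (IsCyclotomicExtension.zeta (p * m) ℚ K) (p * m) :=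
      IsCyclotomicExtension.zeta_spec (p * m) ℚ K
    have hmem : IsCyclotomicExtension.zeta (p * m) ℚ K ∈ A := by
      have hi : IsIntegral ℤ (IsCyclotomicExtension.zeta (p * m) ℚ K) :=
        hζ.isIntegral (Nat.pos_of_ne_zero hpos)
      have hi2 : IsIntegral A (IsCyclotomicExtension.zeta (p * m) ℚ K) := hi.tower_top
      obtain ⟨y, hy⟩ := IsIntegrallyClosed.isIntegral_iff.mp hi2
      rw [← hy]; exact y.2
    obtain ⟨z, hzeq⟩ : ∃ z : A, (z : K) = IsCyclotomicExtension.zeta (p * m) ℚ K :=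
      ⟨⟨_, hmem⟩, rfl⟩
    have hz : IsPrimitiveRoot z (p * m) := by
      refine IsPrimitiveRoot.of_map_of_injective (f := A.subtype) ?_ Subtype.coe_injective
      simp [hzeq, hζ]
    have hres : IsPrimitiveRoot (residue A z) m := by
      obtain ⟨c, w, hc, hw, hcw, hh⟩ := hSpl K A p m z F.hp hm1 F.ndvd hz
      exact (hh hA).2.2
    have htyp := fun b hb => typC_all hRpb hWpd hLst hOpr hRpw hWro hDes hAbs F K A z hA hz b hb
    rcases hTyp p m g h F K A z hA hz htyp with h1 | h1
    · exact end_g hRpb hWpd hLst hOpr hRpw hWro hDes hAbs hSum hTrf hAlg hNgh hNgr hPdv hNum F K A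
        z hA hz hres h1
    · exact end_g hRpb hWpd hLst hOpr hRpw hWro hDes hAbs hSum hTrf hAlg hNgh hNgr hPdv hNum
        F.swap K A z hA hz hres h1
  have : NeZero ((p * m : ℕ) : ℚ) := ⟨by exact_mod_cast hpos⟩
  have hI : @IsCyclotomicExtension {p * m} ℚ (CyclotomicField (p * m) ℚ) _ _
      DivisionRing.toRatAlgebra := by
    have e : (DivisionRing.toRatAlgebra : Algebra ℚ (CyclotomicField (p * m) ℚ)) =
        CyclotomicField.algebra (p * m) ℚ := Subsingleton.elim _ _
    rw [e]
    exact CyclotomicField.isCyclotomicExtension (p * m) ℚ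
  exact key (CyclotomicField (p * m) ℚ)

theorem main2_of (hMn2 : Mn2Stmt) (hRed : RedStmt) (hDbl : DblStmt) (hPrm : PrmStmt) :
    Main2Stmt := by
  have hodd : ∀ (p m : ℕ), p.Prime → Squarefree m → 12 * m ^ 2 ≤ p → Odd m →
      Odd (p * m) ∧ 3 ≤ p * m ∧ Irreducible (derivative (cyclotomic (p * m) ℚ)) := by
    intro p m hp hm hpm ho
    have hm0 : 1 ≤ m := ho.pos
    have hp12 : 12 ≤ p := by nlinarith
    have hpo : Odd p := hp.odd_of_ne_two (by omega)
    have ho' : Odd (p * m) := hpo.mul ho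
    have h3 : 3 ≤ p * m := by nlinarith
    refine ⟨ho', h3, ?_⟩
    rcases Nat.lt_or_ge m 3 with h | h
    · have hm1 : m = 1 := by
        interval_cases m
        · rfl
        · exact absurd ho (by decide)
      rw [hm1, mul_one]
      exact hPrm p hp (by omega)
    · have hlt : m < p := by nlinarith
      have hcop : p.Coprime m := by
        rw [Nat.Prime.coprime_iff_not_dvd hp]
        intro hd
        exact absurd (Nat.le_of_dvd (by omega) hd) (by omega)
      have hsq : Squarefree (p * m) := (Nat.squarefree_mul hcop).mpr ⟨hp.squarefree, hm⟩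
      exact hRed (p * m) h3 ho' hsq (fun g h' F => hMn2 p m g h' ⟨hp, h, hpm, F⟩)
  intro p m hp hm hpm
  rcases Nat.even_or_odd m with he | ho
  · obtain ⟨r, hr⟩ := he
    have hr2 : m = 2 * r := by omega
    have hrs : Squarefree r := hm.squarefree_of_dvd ⟨2, by rw [hr2]; ring⟩
    have hro : Odd r := by
      rw [← Nat.not_even_iff_odd]
      intro hev
      obtain ⟨t, ht⟩ := hev
      have : 2 * 2 ∣ m := ⟨t, by rw [hr2, ht]; ring⟩
      have := hm 2 this
      rw [Nat.isUnit_iff] at this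
      omega
    have hpr : 12 * r ^ 2 ≤ p := by rw [hr2] at hpm; nlinarith
    obtain ⟨h1, h2, h3⟩ := hodd p r hp hrs hpr hro
    have := hDbl (p * r) h1 (by omega) h3
    have e : p * m = 2 * (p * r) := by rw [hr2]; ring
    rw [e]; exact this
  · exact (hodd p m hp hm hpm ho).2.2

end Pool.Agent.CYD
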