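import Mathlib

/-! # CYD (MP_734b60_nt): irreducibility of the derivatives of cyclotomic polynomials.
Architect: helper85.  Papers: /team-store/PAPER_CYC85.md, plan: /team-store/PLAN_CYD.md -/

set_option autoImplicit false

open Polynomial IsLocalRing

namespace Pool.Agent.CYD

/-- A hypothetical factorisation of the derivative of the cyclotomic polynomial of order `n`. -/
structure Fg (n : ℕ) (g h : ℤ[X]) : Prop where
  hn : 3 ≤ n
  ho : Odd n
  hs : Squarefree n
  fac : g * h = derivative (cyclotomic n ℤ)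
  hg : 1 ≤ g.natDegree
  hh : 1 ≤ h.natDegree

/-- The same, `n = p q` (part 1). -/
structure Fac (n p q : ℕ) (g h : ℤ[X]) : Prop where
  hn : n = p * q
  hp : p.Prime
  hq : q.Prime
  hp2 : p ≠ 2
  hq2 : q ≠ 2
  hpq : p ≠ q
  fac : g * h = derivative (cyclotomic n ℤ)
  hg : 1 ≤ g.natDegree
  hh : 1 ≤ h.natDegree

/-- The same, `n = p m` with `p` large (part 2). -/
structure Fb (p m : ℕ) (g h : ℤ[X]) : Prop where
  hp : p.Prime
  hm : 3 ≤ m
  hpm : 12 * m ^ 2 ≤ p
  F : Fg (p * m) g h

/-- A valuation ring `A` above `p` (that is, `p` is not a unit of `A`) which contains the primitive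
roots of unity `c` of order `q` and `w` of order `p`. -/
structure Loc (p q : ℕ) {K : Type} [Field K] (A : ValuationSubring K) (c w : A) : Prop where
  hm : (p : A) ∈ maximalIdeal A
  hc : IsPrimitiveRoot c q
  hw : IsPrimitiveRoot w p

/-- `u(x) = g*(x) / g(x)`. -/
noncomputable def uu {K : Type} [Field K] (g : ℤ[X]) (x : K) : K :=
  aeval x g.reverse / aeval x g

/-- Reduction of an integer polynomial. -/
noncomputable def red (L : Type) [CommRing L] (f : ℤ[X]) : L[X] := f.map (Int.castRingHom L)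

/-- Multiplicity of the residue of `c` as a root of `f` modulo the maximal ideal. -/
noncomputable def mu {K : Type} [Field K] (A : ValuationSubring K) (f : ℤ[X]) (c : A) : ℕ :=
  rootMultiplicity (residue A c) (red (ResidueField A) f)

/-- The exponent `U(c) = s(c⁻¹) - s(c)` (`c` a root of unity of order `q`). -/
noncomputable def ex {K : Type} [Field K] (A : ValuationSubring K) (f : ℤ[X]) (q : ℕ) (c : A) : ℤ :=
  (mu A f (c ^ (q - 1)) : ℤ) - mu A f c

theorem Fg.swap {n : ℕ} {g h : ℤ[X]} (F : Fg n g h) : Fg n h g where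
  hn := F.hn
  ho := F.ho
  hs := F.hs
  fac := by rw [mul_comm]; exact F.fac
  hg := F.hh
  hh := F.hg

theorem Fb.swap {p m : ℕ} {g h : ℤ[X]} (F : Fb p m g h) : Fb p m h g where
  hp := F.hp
  hm := F.hm
  hpm := F.hpm
  F := F.F.swap

theorem Fac.swap {n p q : ℕ} {g h : ℤ[X]} (F : Fac n p q g h) : Fac n p q h g where
  hn := F.hn
  hp := F.hp
  hq := F.hq
  hp2 := F.hp2
  hq2 := F.hq2
  hpq := F.hpq
  fac := by rw [mul_comm]; exact F.fac
  hg := F.hh
  hh := F.hg

theorem Fac.symm {n p q : ℕ} {g h : ℤ[X]} (F : Fac n p q g h) : Fac n q p g h where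
  hn := by rw [mul_comm]; exact F.hn
  hp := F.hq
  hq := F.hp
  hp2 := F.hq2
  hq2 := F.hp2
  hpq := F.hpq.symm
  fac := F.fac
  hg := F.hg
  hh := F.hh

theorem Fac.toFg {n p q : ℕ} {g h : ℤ[X]} (F : Fac n p q g h) : Fg n g h where
  hn := by
    rw [F.hn]
    have h1 := F.hp.two_le
    have h2 := F.hq.two_le
    have h3 : 2 * 2 ≤ p * q := Nat.mul_le_mul h1 h2
    omega
  ho := by
    rw [F.hn]
    exact (F.hp.odd_of_ne_two F.hp2).mul (F.hq.odd_of_ne_two F.hq2)
  hs := by
    rw [F.hn, Nat.squarefree_mul ((Nat.coprime_primes F.hp F.hq).mpr F.hpq)]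
    exact ⟨F.hp.squarefree, F.hq.squarefree⟩
  fac := F.fac
  hg := F.hg
  hh := F.hh

theorem Fb.odd {p m : ℕ} {g h : ℤ[X]} (F : Fb p m g h) : Odd m := (Nat.odd_mul.mp F.F.ho).2

theorem Fb.cop {p m : ℕ} {g h : ℤ[X]} (F : Fb p m g h) : p.Coprime m :=
  Nat.coprime_of_squarefree_mul F.F.hs

theorem Fb.sqf {p m : ℕ} {g h : ℤ[X]} (F : Fb p m g h) : Squarefree m :=
  F.F.hs.squarefree_of_dvd (Dvd.intro_left p rfl)

theorem Fb.ndvd {p m : ℕ} {g h : ℤ[X]} (F : Fb p m g h) : ¬ p ∣ m := fun hd => by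
  have := F.cop
  rw [Nat.Prime.coprime_iff_not_dvd F.hp] at this
  exact this hd

/-! ### part 2 -/

/-- Iterated quotients `w(κ k) / w(k)`. -/
noncomputable def WW {K : Type} [Field K] (u : ℕ → K) : List (ℕ × ℕ) → ℕ → K
  | [], k => u k
  | x :: t, k => WW u t (x.1 * k) / WW u t k

/-- Iterated operators on rational functions `A / B`:
`R_b(z) ↦ D R_{κ b}(z ^ D) - R_b(z)`. -/
noncomputable def WP {L : Type} [Field L] (A B : ℕ → L[X]) : List (ℕ × ℕ) → ℕ → L[X] × L[X]
  | [], b => (A b, B b)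
  | x :: t, b =>
    (C (x.2 : L) * expand L x.2 (WP A B t (x.1 * b)).1 * (WP A B t b).2 -
        (WP A B t b).1 * expand L x.2 (WP A B t (x.1 * b)).2,
      expand L x.2 (WP A B t (x.1 * b)).2 * (WP A B t b).2)

/-- `w` is represented near `ζ` by polynomials with logarithmic derivative `N / P`; `z` is the
primitive root of unity, `a` its residue, the variable `X` stands for `ζ / a`. -/
def Rep (p : ℕ) {K : Type} [Field K] (A : ValuationSubring K) (z : A) (w : K)
    (N P : (ResidueField A)[X]) (μ : ℕ) : Prop :=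
  ∃ (e : ℤ) (F G : ℤ[X]) (x y : (ResidueField A)[X]),
    w * (p : K) ^ e * aeval (z : K) G = aeval (z : K) F ∧
    (X - 1) ^ (p - 1) ∣ (red (ResidueField A) F).comp (C (residue A z) * X) - x ∧
    (X - 1) ^ (p - 1) ∣ (red (ResidueField A) G).comp (C (residue A z) * X) - y ∧
    x ≠ 0 ∧ y ≠ 0 ∧ rootMultiplicity 1 (x * y) ≤ μ ∧
    N * (x * y) = P * (X * (derivative x * y - x * derivative y))

/-- The logarithmic derivative of `x / y` is a constant. -/
def LogC {L : Type} [Field L] (x y : L[X]) : Prop :=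
  ∃ c : L, X * (derivative x * y - x * derivative y) = C c * (x * y)

/-- `b` is of large type. -/
def Big {K : Type} [Field K] (A : ValuationSubring K) (m : ℕ) (g : ℤ[X]) (z : A) (b : ℕ) : Prop :=
  m.totient ≤ mu A g (z ^ b)

/-- What we know if the logarithmic derivative of `u` near `ζ ^ b` is constant. -/
def TypC {K : Type} [Field K] (A : ValuationSubring K) (m : ℕ) (g h : ℤ[X]) (z : A) (b : ℕ) :
    Prop :=
  (¬ Big A m g z b → ¬ Big A m g z ((m - 1) * b) →
    LogC (red (ResidueField A) g.reverse) (red (ResidueField A) g)) ∧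
  (Big A m g z b → ¬ Big A m g z ((m - 1) * b) →
    LogC (red (ResidueField A) (g.reverse * h * cyclotomic m ℤ)) 1) ∧
  (¬ Big A m g z b → Big A m g z ((m - 1) * b) →
    LogC 1 (red (ResidueField A) (h.reverse * g * cyclotomic m ℤ))) ∧
  (Big A m g z b → Big A m g z ((m - 1) * b) →
    LogC (red (ResidueField A) h) (red (ResidueField A) h.reverse))

end Pool.Agent.CYD
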