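import Pool.Agent.Helper85_CYD.StG
import Pool.Agent.Helper85_CYD.St1

/-! # CYD: all squarefree orders with at most two odd prime factors.  helper85 -/

set_option autoImplicit false

open Polynomial

namespace Pool.Agent.CYD

theorem odd_case (h1 : Main1Stmt) (hPrm : PrmStmt) (hDbl : DblStmt) {m : ℕ} (hm : Squarefree m)
    (ho : Odd m) (h3 : 3 ≤ m) (hc : m.primeFactors.card ≤ 2) :
    Irreducible (derivative (cyclotomic m ℚ)) ∧
      Irreducible (derivative (cyclotomic (2 * m) ℚ)) := by
  have hprod := Nat.prod_primeFactors_of_squarefree hm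
  have hodd : ∀ p : ℕ, p.Prime → p ∣ m → p ≠ 2 := by
    rintro p - hd rfl
    obtain ⟨k, hk⟩ := ho
    omega
  have hcases : m.primeFactors.card = 0 ∨ m.primeFactors.card = 1 ∨ m.primeFactors.card = 2 := by
    omega
  rcases hcases with h0 | h0 | h0
  · rw [Finset.card_eq_zero] at h0
    rw [h0, Finset.prod_empty] at hprod
    omega
  · obtain ⟨p, hp⟩ := Finset.card_eq_one.mp h0
    rw [hp, Finset.prod_singleton] at hprod
    have hmem : p ∈ m.primeFactors := by rw [hp]; simp
    have hpp := Nat.prime_of_mem_primeFactors hmem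
    have hp2 := hodd p hpp (Nat.dvd_of_mem_primeFactors hmem)
    subst hprod
    have := hPrm p hpp hp2
    exact ⟨this, hDbl p ho (by omega) this⟩
  · obtain ⟨p, q, hpq, hp⟩ := Finset.card_eq_two.mp h0
    rw [hp, Finset.prod_pair hpq] at hprod
    have hmem : p ∈ m.primeFactors := by rw [hp]; simp
    have hmem' : q ∈ m.primeFactors := by rw [hp]; simp
    have hpp := Nat.prime_of_mem_primeFactors hmem
    have hqq := Nat.prime_of_mem_primeFactors hmem'
    have hp2 := hodd p hpp (Nat.dvd_of_mem_primeFactors hmem)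
    have hq2 := hodd q hqq (Nat.dvd_of_mem_primeFactors hmem')
    have := h1 p q hpp hqq hp2 hq2 hpq
    rw [hprod] at this
    exact this

theorem two_odd_primes (h1 : Main1Stmt) (hPrm : PrmStmt) (hDbl : DblStmt) {n : ℕ}
    (hn : Squarefree n) (h3 : 3 ≤ n) (hc : (n.primeFactors.erase 2).card ≤ 2) :
    Irreducible (derivative (cyclotomic n ℚ)) := by
  rcases Nat.even_or_odd n with he | ho
  · obtain ⟨r, hr⟩ := he
    have hr2 : n = 2 * r := by omega
    have hrs : Squarefree r := hn.squarefree_of_dvd ⟨2, by rw [hr2]; ring⟩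
    have hro : Odd r := by
      rw [← Nat.not_even_iff_odd]
      rintro ⟨t, ht⟩
      have h4 : 2 * 2 ∣ n := ⟨t, by rw [hr2, ht]; ring⟩
      have := hn 2 h4
      rw [Nat.isUnit_iff] at this
      omega
    have hr3 : 3 ≤ r := by
      obtain ⟨t, ht⟩ := hro
      omega
    have hcop : Nat.Coprime 2 r := by
      rw [Nat.coprime_two_left]
      exact hro
    have hfac : n.primeFactors.erase 2 = r.primeFactors := by
      rw [hr2, Nat.Coprime.primeFactors_mul hcop, Nat.Prime.primeFactors Nat.prime_two]
      ext x
      simp only [Finset.mem_erase, Finset.mem_union, Finset.mem_singleton]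
      constructor
      · rintro ⟨h5, h6 | h6⟩
        · exact absurd h6 h5
        · exact h6
      · intro h5
        refine ⟨?_, Or.inr h5⟩
        rintro rfl
        have := Nat.dvd_of_mem_primeFactors h5
        obtain ⟨t, ht⟩ := hro
        omega
    rw [hfac] at hc
    rw [hr2]
    exact (odd_case h1 hPrm hDbl hrs hro hr3 hc).2
  · have hfac : n.primeFactors.erase 2 = n.primeFactors := by
      apply Finset.erase_eq_of_notMem
      intro h5
      have := Nat.dvd_of_mem_primeFactors h5
      obtain ⟨t, ht⟩ := ho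
      omega
    rw [hfac] at hc
    exact (odd_case h1 hPrm hDbl hn ho h3 hc).1

end Pool.Agent.CYD
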