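import Pool.Agent.Helper85_CYD.As2
import Pool.Agent.Helper76_CYD.Abs
import Pool.Agent.Helper75_CYD.Alg
import Pool.Agent.Helper75_CYD.Typ
import Pool.Agent.Helper59_CYD.Awy
import Pool.Agent.Helper59_CYD.Ngh
import Pool.Agent.Helper66_CYD.Bas
import Pool.Agent.Helper66_CYD.Fct
import Pool.Agent.Helper66_CYD.Opr
import Pool.Agent.Helper66_CYD.Unt
import Pool.Agent.Helper50_CYD.Clm
import Pool.Agent.Helper50_CYD.Rpb
import Pool.Agent.Helper46_CYD.Red
import Pool.Agent.Helper47_CYD.Des
import Pool.Agent.Helper47_CYD.Exa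
import Pool.Agent.Helper47_CYD.Lst
import Pool.Agent.Helper47_CYD.Rpx
import Pool.Agent.Helper11_CYD.Dvd
import Pool.Agent.Helper11_CYD.Rmu
import Pool.Agent.Helper11_CYD.Spl
import Pool.Agent.Helper11_CYD.Sum
import Pool.Agent.Helper48_CYD.Fro
import Pool.Agent.Helper24_CYD.Idn
import Pool.Agent.Helper24_CYD.Wpd
import Pool.Agent.Helper67_CYD.Kro
import Pool.Agent.Helper67_CYD.Lgm
import Pool.Agent.Helper67_CYD.Ram
import Pool.Agent.Helper63_CYD.LocM
import Pool.Agent.Helper63_CYD.Pol
import Pool.Agent.Helper70_CYD.Ngr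
import Pool.Agent.Helper38_CYD.Num
import Pool.Agent.Helper7_CYD.Prm
import Pool.Agent.Helper81_CYD.Rad
import Pool.Agent.Helper26_CYD.Rev
import Pool.Agent.Helper29_CYD.Rpc
import Pool.Agent.Helper41_CYD.Unr
import Pool.Agent.Helper25_CYD.Wro

/-! # CYD: the theorem of part 2.  helper85 -/

set_option autoImplicit false

open Polynomial

namespace Pool.Agent.CYD

theorem main2 (hDisc : DiscStmt) (hCoe : CoeStmt) (hPdv : PdvStmt) : Main2Stmt := by
  have hDvd : DvdStmt := dvd
  have hAbs : AbsStmt := H76.abs_mod hDvd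
  have hAwy : AwyStmt := awy hDvd
  have hRev : RevStmt := rev
  have hBas : BasStmt := bas hDisc hCoe
  have hKro : KroStmt := kro
  have hUnr : UnrStmt := unr
  have hRam : RamStmt := ram
  have hLoc : LocStmt := loc hUnr hRam
  have hSum : SumStmt := sum
  have hFro : FroStmt := H48.fro
  have hTrf : TrfStmt := H48.trf
  have hRmu : RmuStmt := rmu
  have hSpl : SplStmt := spl
  have hClm : ClmStmt := clm
  have hExa : ExaStmt := exa
  have hRed : RedStmt := redMod hCoe
  have hDbl : DblStmt := dbl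
  have hPrm : PrmStmt := H7.prm
  have hUnt : UntStmt := unt hLoc hSum hFro hRmu hSpl hAbs
  have hOpr : OprStmt := opr hUnt hAwy hAbs hKro
  have hWro : WroStmt := H25.wro
  have hRpc : RpcStmt := rpc
  have hRpw : RpwStmt := rpw hRpc
  have hWpd : WpdStmt := wpd
  have hLst : LstStmt := lst
  have hRad : RadStmt := rad
  have hRpx : RpxStmt := rpx
  have hIdn : IdnStmt := idn hRev
  have hFct : FctStmt := fct hRev hBas hCoe
  have hRpb : RpbStmt := rpb hRad hRpx hIdn hFct hClm hRmu hAbs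
  have hPol : PolStmt := pol
  have hDes : DesStmt := des hPol
  have hLgm : LgmStmt := lgm
  have hTyp : TypStmt := H75.typ hLgm hClm hSum hFct hRmu hSpl
  have hAlg : AlgStmt := H75A.alg hLgm hFct hBas hSpl
  have hNgh : NghStmt := ngh hDvd
  have hNgr : NgrStmt := ngr hAbs
  have hNum : NumStmt := H38.num
  exact main2_of (mn2_of hRpb hWpd hLst hOpr hRpw hWro hDes hAbs hSum hTrf hAlg hNgh hNgr hPdv
    hNum hTyp hExa hSpl) hRed hDbl hPrm

end Pool.Agent.CYD
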