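import Pool.Agent.Helper85_CYD.As1
import Pool.Agent.Helper85_CYD.Fin1
import Pool.Agent.Helper76_CYD.Abs
import Pool.Agent.Helper76_CYD.T3
import Pool.Agent.Helper59_CYD.Awy
import Pool.Agent.Helper66_CYD.Bas
import Pool.Agent.Helper50_CYD.Clm
import Pool.Agent.Helper46_CYD.Red
import Pool.Agent.Helper47_CYD.Exa
import Pool.Agent.Helper11_CYD.Dvd
import Pool.Agent.Helper11_CYD.Rmu
import Pool.Agent.Helper11_CYD.Sum
import Pool.Agent.Helper48_CYD.Fro
import Pool.Agent.Helper67_CYD.Kro
import Pool.Agent.Helper67_CYD.Ram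
import Pool.Agent.Helper67_CYD.S3
import Pool.Agent.Helper63_CYD.LocM
import Pool.Agent.Helper7_CYD.Prm
import Pool.Agent.Helper26_CYD.Rev
import Pool.Agent.Helper26_CYD.Gal
import Pool.Agent.Helper41_CYD.Unr
import Pool.Agent.Helper41_CYD.Gen
import Pool.Agent.Helper41_CYD.Val
import Pool.Agent.Helper41_CYD.Wmu
import Pool.Agent.Helper25_CYD.Eis
import Pool.Agent.Helper19_CYD.Tam
import Pool.Agent.Helper9_CYD.Sqr
import Pool.Agent.Helper81_CYD.Lin
import Pool.Agent.Helper81_CYD.C21
import Pool.Agent.Helper81_CYD.C55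
import Pool.Agent.Helper94_CYD.C39
import Pool.Agent.Helper31_CYD.S5
import Pool.Agent.Helper31_CYD.S7
import Pool.Agent.Helper70_CYD.Uni
import Pool.Agent.Helper64_CYD.Bnd
import Pool.Agent.Helper64_CYD.Fin

/-! # CYD: the theorem of part 1.  helper85 -/

set_option autoImplicit false

open Polynomial

namespace Pool.Agent.CYD

theorem main1 (hDisc : DiscStmt) (hCoe : CoeStmt) : Main1Stmt := by
  have hDvd : DvdStmt := dvd
  have hAbs : AbsStmt := H76.abs_mod hDvd
  have hAwy : AwyStmt := awy hDvd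
  have hRev : RevStmt := rev
  have hBas : BasStmt := bas hDisc hCoe
  have hKro : KroStmt := kro
  have hUnr : UnrStmt := unr
  have hRam : RamStmt := ram
  have hLoc : LocStmt := loc hUnr hRam
  have hSum : SumStmt := sum
  have hFro : FroStmt := H48.fro
  have hRmu : RmuStmt := rmu
  have hClm : ClmStmt := clm
  have hExa : ExaStmt := exa
  have hRed : RedStmt := redMod hCoe
  have hDbl : DblStmt := dbl
  have hEis : EisStmt := H25.eis hUnr hSum
  have hTam : TamStmt := H19.tam hLoc hSum hRmu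
  have hGal : GalStmt := gal
  have hGen : GenStmt := gen hKro hGal hRam
  have hSqr : SqrStmt := H9.sqr hGen hTam hAbs hAwy
  have hLin : LinStmt := lin hGen hTam hAbs hAwy
  have hVal : ValStmt := val hSum hEis
  have hS7 : S7Stmt := H31.s7 hSqr hLin hVal
  have hS5 : S5Stmt := H31.s5 hSqr hLin hVal hClm hSum
  have hS3 : S3Stmt := s3 hSqr hVal hFro
  have hUni : UniStmt := uni hTam hAwy hAbs hKro hRev
  have hBnd : BndStmt := bnd wmu hSum hBas
  have hFin : FinStmt := fin hBnd hBas
  have hT3 : T3Stmt := H76.t3 hSum hBas hCoe hRev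
  exact main1_of hExa hS7 hS5 hUni hFin hS3 hVal hSum hEis hT3 hRed hDbl cert21 H94.cert39 cert55

theorem two_odd (hDisc : DiscStmt) (hCoe : CoeStmt) {n : ℕ} (hn : Squarefree n) (h3 : 3 ≤ n)
    (hc : (n.primeFactors.erase 2).card ≤ 2) : Irreducible (derivative (cyclotomic n ℚ)) :=
  two_odd_primes (main1 hDisc hCoe) H7.prm dbl hn h3 hc

end Pool.Agent.CYD
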